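import Pool.Agent.Q33.SB.Stm

/-!
# Project SB (helper33), job SB-DOM (helper151)
-/

set_option autoImplicit false
set_option linter.all false

open scoped TensorProduct
open Polynomial

namespace Pool.Agent.Q151.SB

open Pool.Agent.Q33.SB

/-- quadratic extensions of a subring of a field -/
theorem dom_of_inj {A F : Type} [CommRing A] [Field F] (φ : A →+* F) (hφ : Function.Injective φ)
    (a : A) (ha : ∀ b : F, b ^ 2 ≠ φ a) : IsDomain (AdjoinRoot (X ^ 2 - C a : A[X])) := by
  haveI : IsDomain A := hφ.isDomain φ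
  have hmon : (X ^ 2 - C a : A[X]).Monic := monic_X_pow_sub_C a two_ne_zero
  have hirr : Irreducible (X ^ 2 - C (φ a)) :=
    (X_pow_sub_C_irreducible_iff_of_prime Nat.prime_two).2 ha
  have hmap : (X ^ 2 - C a : A[X]).map φ = X ^ 2 - C (φ a) := by simp
  apply AdjoinRoot.isDomain_of_prime
  refine ⟨hmon.ne_zero, ?_, ?_⟩
  · intro hu
    have h := hu.map (mapRingHom φ)
    rw [coe_mapRingHom, hmap] at h
    exact hirr.not_isUnit h
  · intro g h hgh
    have h1 : X ^ 2 - C (φ a) ∣ g.map φ * h.map φ := by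
      rw [← hmap, ← Polynomial.map_mul]
      exact Polynomial.map_dvd φ hgh
    rcases hirr.prime.dvd_or_dvd h1 with h2 | h2
    · left
      rw [← hmap, map_dvd_map φ hφ hmon] at h2
      exact h2
    · right
      rw [← hmap, map_dvd_map φ hφ hmon] at h2
      exact h2

theorem not_sq (K : Type) [Field K] [CharZero K] (b : FractionRing K[X]) :
    b ^ 2 ≠ algebraMap K[X] (FractionRing K[X]) (X ^ 4 + 1) := by
  intro h
  obtain ⟨g, hg⟩ := IsIntegrallyClosed.exists_algebraMap_eq_of_isIntegral_pow (R := K[X])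
    (n := 2) (by norm_num) (x := b) (by rw [h]; exact isIntegral_algebraMap)
  rw [← hg, ← map_pow] at h
  have h1 : g ^ 2 = X ^ 4 + 1 := IsFractionRing.injective K[X] (FractionRing K[X]) h
  have h2 : g * (C 2 * derivative g) = C 4 * X ^ 3 := by
    have h3 := congrArg derivative h1
    rw [derivative_pow, derivative_add, derivative_X_pow, derivative_one] at h3
    have h4 : C ((2 : ℕ) : K) * g ^ (2 - 1) * derivative g = C ((4 : ℕ) : K) * X ^ (4 - 1) + 0 := h3
    norm_num at h4
    calc g * (C 2 * derivative g) = C 2 * g * derivative g := by ring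
      _ = C 4 * X ^ 3 := by
        rw [show (C 2 : K[X]) = 2 from rfl, show (C 4 : K[X]) = 4 from rfl]
        exact h4
  have h5 : g ∣ C (4 : K) := by
    refine ⟨C 4 * g - X * (C 2 * derivative g), ?_⟩
    calc C (4 : K) = C 4 * (X ^ 4 + 1) - X * (C 4 * X ^ 3) := by ring
      _ = _ := by rw [← h1, ← h2]; ring
  have h6 : IsUnit g := isUnit_of_dvd_unit h5 (isUnit_C.2 (by norm_num))
  have h7 := natDegree_eq_zero_of_isUnit h6
  have h8 := congrArg natDegree h1
  rw [natDegree_pow, h7] at h8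
  have h9 : (X ^ 4 + 1 : K[X]).natDegree = 4 := by
    rw [show (1 : K[X]) = C 1 from rfl, natDegree_X_pow_add_C]
  omega

/-- the evaluation of the Laurent polynomials in the rational functions -/
noncomputable def ev (K : Type) [Field K] : LaurentPolynomial K →+* FractionRing K[X] :=
  LaurentPolynomial.eval₂ (algebraMap K (FractionRing K[X]))
    (Units.mk0 (algebraMap K[X] (FractionRing K[X]) X) (by
      rw [Ne, FaithfulSMul.algebraMap_eq_zero_iff]
      exact X_ne_zero))

theorem ev_toLaurent (K : Type) [Field K] (p : K[X]) :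
    ev K (toLaurent p) = algebraMap K[X] (FractionRing K[X]) p := by
  unfold ev
  rw [LaurentPolynomial.eval₂_toLaurent]
  induction p using Polynomial.induction_on' with
  | add p q hp hq => rw [eval₂_add, hp, hq, map_add]
  | monomial n a =>
    rw [eval₂_monomial, ← C_mul_X_pow_eq_monomial, map_mul, map_pow]
    rfl

theorem ev_inj (K : Type) [Field K] : Function.Injective (ev K) := by
  rw [injective_iff_map_eq_zero]
  intro f hf
  obtain ⟨n, f', hf'⟩ := LaurentPolynomial.exists_T_pow f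
  have h1 := congrArg (ev K) hf'
  rw [ev_toLaurent, map_mul, hf, zero_mul, FaithfulSMul.algebraMap_eq_zero_iff] at h1
  rw [h1, map_zero] at hf'
  exact ((LaurentPolynomial.isUnit_T (R := K) n).mul_left_eq_zero).1 hf'.symm

theorem dom_tensor (K : Type) [Field K] [Algebra ℚ K] : IsDomain (CoordRing ⊗[ℚ] K) := by
  haveI : CharZero K := algebraRat.charZero K
  have e0 : CoordRing ⊗[ℚ] K ≃ₐ[ℚ] K ⊗[ℚ] CoordRing := Algebra.TensorProduct.comm ℚ CoordRing K
  have e1 := AdjoinRoot.tensorAlgEquiv (R := ℚ) (T := K)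
    (X ^ 2 - C (LaurentPolynomial.T 4 + 1) : (LaurentPolynomial ℚ)[X])
    (X ^ 2 - C ((1 : K) ⊗ₜ[ℚ] (LaurentPolynomial.T 4 + 1 : LaurentPolynomial ℚ)))
    (by rw [Polynomial.map_sub, Polynomial.map_pow, map_X, map_C]; rfl)
  have h1 : IsDomain (AdjoinRoot (X ^ 2 -
      C ((1 : K) ⊗ₜ[ℚ] (LaurentPolynomial.T 4 + 1 : LaurentPolynomial ℚ)))) := by
    refine dom_of_inj ((ev K).comp
      ((AddMonoidAlgebra.scalarTensorEquiv ℚ K :
        K ⊗[ℚ] LaurentPolynomial ℚ ≃ₐ[K] LaurentPolynomial K) :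
        K ⊗[ℚ] LaurentPolynomial ℚ →+* LaurentPolynomial K)) ?_ _ ?_
    · exact (ev_inj K).comp (AddMonoidAlgebra.scalarTensorEquiv ℚ K :
        K ⊗[ℚ] LaurentPolynomial ℚ ≃ₐ[K] LaurentPolynomial K).injective
    · intro b hb
      apply not_sq K b
      rw [hb, ← ev_toLaurent]
      show ev K ((AddMonoidAlgebra.scalarTensorEquiv ℚ K :
        K ⊗[ℚ] LaurentPolynomial ℚ ≃ₐ[K] LaurentPolynomial K) _) = _
      rw [AddMonoidAlgebra.scalarTensorEquiv_tmul, one_smul]
      congr 1
      rw [map_add, map_one, map_add, map_one, toLaurent_X_pow]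
      congr 1
      exact (AddMonoidAlgebra.mapAlgHom_single (Algebra.ofId ℚ K) (4 : ℤ) (1 : ℚ)).trans
        (congrArg (AddMonoidAlgebra.single (4 : ℤ)) (map_one (Algebra.ofId ℚ K)))
  exact (e0.toMulEquiv.trans e1.toMulEquiv).isDomain _

theorem t_DOM : S_DOM := by
  refine ⟨?_, ?_, fun K _ _ => dom_tensor K⟩
  · haveI : Algebra.FiniteType ℚ (LaurentPolynomial ℚ) :=
      inferInstanceAs (Algebra.FiniteType ℚ (AddMonoidAlgebra ℚ ℤ))
    infer_instance
  · haveI := dom_tensor ℚ
    exact (Algebra.TensorProduct.rid ℚ ℚ CoordRing).symm.toMulEquiv.isDomain _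

end Pool.Agent.Q151.SB
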