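import Pool.Agent.Q33.SB.Stm

/-!
# Project SB (helper33), job SB-FLD (helper151)
-/

set_option autoImplicit false
set_option linter.all false

open scoped TensorProduct NumberField
open Polynomial

namespace Pool.Agent.Q151.SB

open Pool.Agent.Q33.SB

theorem irr_cyc (p m : ℕ) [Fact p.Prime] (hm : 1 ≤ m) : Irreducible (cyclotomic (p ^ m) ℚ_[p]) := by
  obtain ⟨k, rfl⟩ : ∃ k, m = k + 1 := ⟨m - 1, by omega⟩
  have hp : p.Prime := Fact.out
  have hE := cyclotomic_prime_pow_comp_X_add_one_isEisensteinAt p k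
  have hmon : ((cyclotomic (p ^ (k + 1)) ℤ_[p]).comp (X + 1)).Monic := by
    refine (cyclotomic.monic _ _).comp ?_ ?_
    · simpa using monic_X_add_C (1 : ℤ_[p])
    · rw [show (1 : ℤ_[p][X]) = C 1 from rfl, natDegree_X_add_C]
      exact one_ne_zero
  have hmap : (cyclotomic (p ^ (k + 1)) ℤ_[p]).comp (X + 1) =
      ((cyclotomic (p ^ (k + 1)) ℤ).comp (X + 1)).map (Int.castRingHom ℤ_[p]) := by
    rw [Polynomial.map_comp, map_cyclotomic]
    simp
  have hE' : ((cyclotomic (p ^ (k + 1)) ℤ_[p]).comp (X + 1)).IsEisensteinAt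
      (Ideal.span {(p : ℤ_[p])}) := by
    have hpr : Prime (p : ℤ_[p]) := PadicInt.prime_p
    refine ⟨?_, ?_, ?_⟩
    · rw [hmon.leadingCoeff, Ideal.mem_span_singleton]
      exact fun h => hpr.not_unit (isUnit_of_dvd_one h)
    · intro n hn
      rw [hmap] at hn ⊢
      rw [coeff_map, Ideal.mem_span_singleton]
      have h1 := hE.mem (n := n) (lt_of_lt_of_le hn (natDegree_map_le))
      rw [Ideal.submodule_span_eq, Ideal.mem_span_singleton] at h1
      obtain ⟨c, hc⟩ := h1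
      rw [hc]
      exact ⟨(c : ℤ_[p]), by simp⟩
    · rw [hmap, coeff_map, Ideal.span_singleton_pow, Ideal.mem_span_singleton]
      intro h1
      apply hE.notMem
      rw [Ideal.submodule_span_eq, Ideal.span_singleton_pow, Ideal.mem_span_singleton]
      exact (PadicInt.pow_p_dvd_int_iff 2
        (((cyclotomic (p ^ (k + 1)) ℤ).comp (X + 1)).coeff 0)).1 h1
  have hpz : (Ideal.span {(p : ℤ_[p])}).IsPrime := by
    rw [Ideal.span_singleton_prime (PadicInt.prime_p).ne_zero]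
    exact PadicInt.prime_p
  have hdeg : 0 < ((cyclotomic (p ^ (k + 1)) ℤ_[p]).comp (X + 1)).natDegree := by
    rw [natDegree_comp, natDegree_cyclotomic, show (1 : ℤ_[p][X]) = C 1 from rfl,
      natDegree_X_add_C, mul_one]
    exact Nat.totient_pos.2 (pow_pos hp.pos _)
  have h1 : Irreducible ((cyclotomic (p ^ (k + 1)) ℤ_[p]).comp (X + 1)) :=
    hE'.irreducible hpz hmon.isPrimitive hdeg
  have h2 : Irreducible (cyclotomic (p ^ (k + 1)) ℤ_[p]) := by
    rw [← MulEquiv.irreducible_iff (algEquivAevalXAddC (1 : ℤ_[p]))]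
    have h4 : algEquivAevalXAddC (1 : ℤ_[p]) (cyclotomic (p ^ (k + 1)) ℤ_[p]) =
        (cyclotomic (p ^ (k + 1)) ℤ_[p]).comp (X + 1) := by
      rw [algEquivAevalXAddC_apply, ← comp_eq_aeval, map_one]
    rw [h4]
    exact h1
  have h5 := ((cyclotomic.monic (p ^ (k + 1)) ℤ_[p]).irreducible_iff_irreducible_map_fraction_map
    (K := ℚ_[p])).1 h2
  rwa [map_cyclotomic] at h5

theorem t_FLD : S_FLD := by
  intro p m _ L _ _ _ hm
  have hp : p.Prime := Fact.out
  haveI : NeZero (p ^ m) := ⟨pow_ne_zero _ hp.ne_zero⟩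
  have hirr := irr_cyc p m hm
  have hζ := IsCyclotomicExtension.zeta_spec (p ^ m) ℚ_[p] (CyclotomicField (p ^ m) ℚ_[p])
  have hζL := IsCyclotomicExtension.zeta_spec (p ^ m) ℚ L
  obtain ⟨z, hz⟩ : ∃ z, z = IsCyclotomicExtension.zeta (p ^ m) ℚ_[p]
    (CyclotomicField (p ^ m) ℚ_[p]) := ⟨_, rfl⟩
  rw [← hz] at hζ
  obtain ⟨zL, hzL⟩ : ∃ zL, zL = IsCyclotomicExtension.zeta (p ^ m) ℚ L := ⟨_, rfl⟩
  rw [← hzL] at hζL
  have hmin : aeval z (minpoly ℚ zL) = 0 := by
    rw [← cyclotomic_eq_minpoly_rat hζL (pow_pos hp.pos m), aeval_def, eval₂_eq_eval_map,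
      map_cyclotomic]
    exact (isRoot_cyclotomic_iff.2 hζ)
  obtain ⟨pb, hgen⟩ : ∃ pb : PowerBasis ℚ L, zL = pb.gen :=
    ⟨hζL.powerBasis ℚ, (hζL.powerBasis_gen ℚ).symm⟩
  subst hgen
  obtain ⟨f, hf⟩ : ∃ f : L →ₐ[ℚ] CyclotomicField (p ^ m) ℚ_[p], f pb.gen = z :=
    ⟨pb.lift z hmin, pb.lift_gen z hmin⟩
  obtain ⟨g, hg⟩ : ∃ g : ℚ_[p] ⊗[ℚ] L →ₐ[ℚ_[p]] CyclotomicField (p ^ m) ℚ_[p],
      ∀ a b, g (a ⊗ₜ b) = algebraMap _ _ a * f b :=
    ⟨Algebra.TensorProduct.lift (Algebra.ofId _ _) f (fun _ _ => Commute.all _ _), fun a b => by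
      rw [Algebra.TensorProduct.lift_tmul]; rfl⟩
  have hsurj : Function.Surjective g := by
    rw [← AlgHom.range_eq_top, eq_top_iff, ← IsCyclotomicExtension.adjoin_primitive_root_eq_top hζ,
      Algebra.adjoin_le_iff, Set.singleton_subset_iff]
    exact ⟨1 ⊗ₜ pb.gen, by show g (1 ⊗ₜ pb.gen) = z; rw [hg, map_one, one_mul, hf]⟩
  have hfin : Module.finrank ℚ_[p] (ℚ_[p] ⊗[ℚ] L) =
      Module.finrank ℚ_[p] (CyclotomicField (p ^ m) ℚ_[p]) := by
    rw [Module.finrank_baseChange, IsCyclotomicExtension.finrank (n := p ^ m) L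
      (cyclotomic.irreducible_rat (pow_pos hp.pos m)),
      IsCyclotomicExtension.finrank (n := p ^ m) (CyclotomicField (p ^ m) ℚ_[p]) hirr]
  haveI : FiniteDimensional ℚ_[p] (CyclotomicField (p ^ m) ℚ_[p]) :=
    IsCyclotomicExtension.finiteDimensional {p ^ m} ℚ_[p] _
  have hinj : Function.Injective g :=
    (LinearMap.injective_iff_surjective_of_finrank_eq_finrank (f := g.toLinearMap) hfin).2 hsurj
  exact MulEquiv.isField (Field.toIsField (CyclotomicField (p ^ m) ℚ_[p]))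
    (AlgEquiv.ofBijective g ⟨hinj, hsurj⟩).toMulEquiv

end Pool.Agent.Q151.SB
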