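import Pool.Agent.Q33.SB.Stm

/-!
# Project SB (helper33), job SB-GEN (helper151)
-/

set_option autoImplicit false
set_option linter.all false

open scoped TensorProduct NumberField
open Polynomial

namespace Pool.Agent.Q151.SB

open Pool.Agent.Q33.SB

theorem t_GEN : S_GEN := by
  intro p m _ L _ _ _ hp2
  have hp : p.Prime := Fact.out
  haveI : NeZero (p ^ m) := ⟨pow_ne_zero _ hp.ne_zero⟩
  have hirr : Irreducible (cyclotomic (p ^ m) ℚ) :=
    cyclotomic.irreducible_rat (pow_pos hp.pos m)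
  haveI : IsGalois ℚ L := IsCyclotomicExtension.isGalois {p ^ m} ℚ L
  haveI : IsCyclic (ZMod (p ^ m))ˣ := ZMod.isCyclic_units_of_prime_pow p hp hp2 m
  have e := IsCyclotomicExtension.autEquivPow L hirr
  haveI : IsCyclic (L ≃ₐ[ℚ] L) := isCyclic_of_surjective e.symm e.symm.surjective
  obtain ⟨σ, hσ⟩ := IsCyclic.exists_ofOrder_eq_natCard (α := (L ≃ₐ[ℚ] L))
  refine ⟨σ, Module.finrank ℚ L, rfl, ?_, Module.finrank_pos⟩
  rw [hσ, IsGalois.card_aut_eq_finrank]

end Pool.Agent.Q151.SB
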