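import Pool.Agent.Q33.SB.Stm

/-!
# Project SB (helper33), job SB-LIN (helper151)
-/

set_option autoImplicit false
set_option linter.all false

open scoped TensorProduct

namespace Pool.Agent.Q151.SB

open Pool.Agent.Q33.SB Finset

section
variable {k R L : Type} [Field k] [CommRing R] [Algebra k R] [Field L] [Algebra k L]

theorem sg_tmul (σ : L ≃ₐ[k] L) (r : R) (l : L) : sg R σ (r ⊗ₜ l) = r ⊗ₜ σ l := by
  unfold sg
  rw [Algebra.TensorProduct.congr_apply, Algebra.TensorProduct.map_tmul]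
  rfl

theorem sg_pow_tmul (σ : L ≃ₐ[k] L) (j : ℕ) (r : R) (l : L) :
    ((sg R σ) ^ j) (r ⊗ₜ l) = r ⊗ₜ (σ ^ j) l := by
  induction j with
  | zero => simp
  | succ j ih =>
    rw [pow_succ', pow_succ', AlgEquiv.mul_apply, ih, sg_tmul, AlgEquiv.mul_apply]

end

theorem t_LIN : S_LIN := by
  intro k R L _ _ _ _ _ σ n hgen
  classical
  obtain ⟨hn, ho, hpos⟩ := hgen
  haveI : FiniteDimensional k L := FiniteDimensional.of_finrank_pos (by omega)
  have hcard : Fintype.card (L ≃ₐ[k] L) = n := by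
    apply le_antisymm
    · rw [← hn]
      exact AlgEquiv.card_le
    · rw [← ho]
      exact orderOf_le_card_univ
  haveI : IsGalois k L := IsGalois.of_card_aut_eq_finrank k L (by
    rw [Nat.card_eq_fintype_card, hcard, hn])
  have hinj : Set.InjOn (fun j => σ ^ j) (range n : Set ℕ) := by
    intro i hi j hj hij
    have h := pow_injOn_Iio_orderOf (x := σ)
    rw [ho] at h
    exact h (by simpa using hi) (by simpa using hj) hij
  have himg : (range n).image (fun j => σ ^ j) = univ := by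
    apply Finset.eq_univ_of_card
    rw [Finset.card_image_of_injOn hinj, card_range, hcard]
  have htr : ∀ z : L, algebraMap k L (Algebra.trace k L z) = ∑ j ∈ range n, (σ ^ j) z := by
    intro z
    rw [trace_eq_sum_automorphisms, ← himg, sum_image hinj]
  obtain ⟨b, hb⟩ : ∃ b, b = Module.finBasis k L := ⟨_, rfl⟩
  have hnd := traceForm_nondegenerate k L
  obtain ⟨d, hd⟩ : ∃ d, d = (Algebra.traceForm k L).dualBasis hnd b := ⟨_, rfl⟩
  have hz : ∀ z : L, z = ∑ i, algebraMap k L (Algebra.trace k L (z * b i)) * d i := by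
    intro z
    conv_lhs => rw [← d.sum_repr z]
    refine sum_congr rfl fun i _ => ?_
    rw [Algebra.smul_def]
    congr 2
    rw [hd, LinearMap.BilinForm.dualBasis_repr_apply]
    rfl
  have hz2 : ∀ z : L, z = ∑ j ∈ range n, (∑ i, d i * (σ ^ j) (b i)) * (σ ^ j) z := by
    intro z
    conv_lhs => rw [hz z]
    simp only [htr, sum_mul, map_mul]
    rw [sum_comm]
    refine sum_congr rfl fun j _ => sum_congr rfl fun i _ => ?_
    ring
  have h1 : ∀ j < n, ∑ i, d i * (σ ^ j) (b i) = if j = 0 then 1 else 0 := by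
    have hli := (linearIndependent_monoidHom L L).comp
      (fun j : Fin n => (((σ ^ (j : ℕ) : L ≃ₐ[k] L) : L →ₐ[k] L) : L →* L)) (by
        intro i j hij
        apply Fin.ext
        apply hinj (by simp) (by simp)
        apply AlgEquiv.ext
        intro x
        exact congrArg (fun f : L →* L => f x) hij)
    rw [Fintype.linearIndependent_iff] at hli
    have h2 := hli (fun j => (∑ i, d i * (σ ^ (j : ℕ)) (b i)) - if (j : ℕ) = 0 then 1 else 0) (by
      funext z
      rw [Finset.sum_apply]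
      show ∑ j : Fin n, ((∑ i, d i * (σ ^ (j : ℕ)) (b i)) - if (j : ℕ) = 0 then 1 else 0) *
        (σ ^ (j : ℕ)) z = 0
      rw [Fin.sum_univ_eq_sum_range (fun j => ((∑ i, d i * (σ ^ j) (b i)) -
        if j = 0 then 1 else 0) * (σ ^ j) z)]
      simp only [sub_mul]
      rw [sum_sub_distrib, ← hz2 z]
      simp only [ite_mul, one_mul, zero_mul]
      rw [Finset.sum_ite_eq' (range n) 0 (fun j => (σ ^ j) z), if_pos (mem_range.2 hpos)]
      simp)
    intro j hj
    exact sub_eq_zero.1 (h2 ⟨j, hj⟩)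
  refine ⟨Fin (Module.finrank k L), inferInstance, d, b, h1, fun T => ?_⟩
  -- the traces are in `R`
  have ht : ∀ z : R ⊗[k] L, ∃ t : R, ∑ j ∈ range n, ((sg R σ) ^ j) z = algebraMap R _ t := by
    intro z
    induction z using TensorProduct.induction_on with
    | zero => exact ⟨0, by simp⟩
    | tmul r l =>
      refine ⟨r * algebraMap k R (Algebra.trace k L l), ?_⟩
      simp only [sg_pow_tmul]
      rw [← TensorProduct.tmul_sum, ← htr, Algebra.TensorProduct.algebraMap_apply,
        Algebra.algebraMap_self_apply, mul_comm, ← Algebra.smul_def, TensorProduct.smul_tmul,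
        Algebra.smul_def, mul_one]
    | add x y hx hy =>
      obtain ⟨s, hs⟩ := hx
      obtain ⟨t, ht⟩ := hy
      refine ⟨s + t, ?_⟩
      simp only [map_add, sum_add_distrib, hs, ht]
  have hz3 : ∀ z : R ⊗[k] L, z = ∑ i, ((1 : R) ⊗ₜ[k] (d i)) *
      ∑ j ∈ range n, ((sg R σ) ^ j) (((1 : R) ⊗ₜ[k] (b i)) * z) := by
    intro z
    have e : ∑ i, ((1 : R) ⊗ₜ[k] (d i)) *
      ∑ j ∈ range n, ((sg R σ) ^ j) (((1 : R) ⊗ₜ[k] (b i)) * z) =
      ∑ j ∈ range n, ((1 : R) ⊗ₜ[k] (∑ i, d i * (σ ^ j) (b i))) * ((sg R σ) ^ j) z := by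
      simp only [map_mul, sg_pow_tmul, mul_sum, TensorProduct.tmul_sum, sum_mul]
      rw [sum_comm]
      refine sum_congr rfl fun j _ => sum_congr rfl fun i _ => ?_
      rw [← mul_assoc, Algebra.TensorProduct.tmul_mul_tmul, one_mul]
    rw [e, sum_congr rfl (fun j hj => by rw [h1 j (mem_range.1 hj)])]
    rw [Finset.sum_eq_single 0]
    · simp [← Algebra.TensorProduct.one_def]
    · intro j _ hj
      rw [if_neg hj, TensorProduct.tmul_zero, zero_mul]
    · intro h0
      exact absurd (mem_range.2 hpos) h0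
  choose t ht using ht
  refine ⟨fun j => ∑ i, T ((1 : R) ⊗ₜ[k] (d i)) * ((1 : R) ⊗ₜ[k] ((σ ^ j) (b i))), fun z => ?_⟩
  have e1 : T z = ∑ i, T ((1 : R) ⊗ₜ[k] (d i)) *
      ∑ j ∈ range n, ((sg R σ) ^ j) (((1 : R) ⊗ₜ[k] (b i)) * z) := by
    conv_lhs => rw [hz3 z]
    rw [map_sum]
    refine sum_congr rfl fun i _ => ?_
    rw [ht]
    generalize t ((1 : R) ⊗ₜ[k] (b i) * z) = r
    have e2 : ((1 : R) ⊗ₜ[k] (d i)) * algebraMap R (R ⊗[k] L) r = r • ((1 : R) ⊗ₜ[k] (d i)) := by
      rw [Algebra.smul_def]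
      exact mul_comm _ _
    rw [e2, map_smul, Algebra.smul_def]
    exact mul_comm _ _
  rw [e1]
  simp only [map_mul, sg_pow_tmul, mul_sum, sum_mul]
  rw [sum_comm]
  refine sum_congr rfl fun j _ => sum_congr rfl fun i _ => ?_
  ring

end Pool.Agent.Q151.SB
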